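import Pool.Agent.helper76.MC.Defs

/-! # Project MC, module M1: iterated differences and squares -/

namespace Pool.Agent.helper76.MC

open Finset Pool.Agent.helper34.DH Pool.Agent.helper76.FV Pool.Agent.helper76.LP
open Pool.Agent.helper76.UR

section M1
variable {G ι : Type*} [CommGroup G]

theorem M1_congr (g g' : ι → G) (L : List ι) (h : ∀ j ∈ L, g j = g' j) (f : G → ℤ) :
    mdf g L f = mdf g' L f := by
  induction L generalizing f with
  | nil => rfl
  | cons i L ih =>
    show mdf g L (fun x => f (g i * x) - f x) = mdf g' L (fun x => f (g' i * x) - f x)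
    rw [h i (List.mem_cons_self), ih fun j hj => h j (List.mem_cons_of_mem _ hj)]

theorem M1_trans (g : ι → G) (L : List ι) (a : G) (f : G → ℤ) (x : G) :
    mdf g L (fun y => f (a * y)) x = mdf g L f (a * x) := by
  induction L generalizing f with
  | nil => rfl
  | cons i L ih =>
    show mdf g L (fun y => f (a * (g i * y)) - f (a * y)) x =
      mdf g L (fun y => f (g i * y) - f y) (a * x)
    rw [← ih (fun y => f (g i * y) - f y)]
    congr 1
    funext y
    rw [mul_left_comm]

theorem M1_sub (g : ι → G) (L : List ι) (f h : G → ℤ) (x : G) :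
    mdf g L (fun y => f y - h y) x = mdf g L f x - mdf g L h x := by
  induction L generalizing f h with
  | nil => rfl
  | cons i L ih =>
    show mdf g L (fun y => (f (g i * y) - h (g i * y)) - (f y - h y)) x =
      mdf g L (fun y => f (g i * y) - f y) x - mdf g L (fun y => h (g i * y) - h y) x
    rw [← ih]
    congr 1
    funext y
    ring

theorem M1_neg (g : ι → G) (L : List ι) (f : G → ℤ) (x : G) :
    mdf g L (fun y => - f y) x = - mdf g L f x := by
  induction L generalizing f with
  | nil => rfl
  | cons i L ih =>
    show mdf g L (fun y => - f (g i * y) - - f y) x = - mdf g L (fun y => f (g i * y) - f y) x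
    rw [← ih]
    congr 1
    funext y
    ring

/-- a difference outside -/
theorem M1_cons (g : ι → G) (i : ι) (L : List ι) (f : G → ℤ) (x : G) :
    mdf g (i :: L) f x = mdf g L f (g i * x) - mdf g L f x := by
  show mdf g L (fun y => f (g i * y) - f y) x = _
  rw [M1_sub g L (fun y => f (g i * y)) f x, M1_trans]

theorem M1_perm (g : ι → G) {L L' : List ι} (h : L.Perm L') (f : G → ℤ) :
    mdf g L f = mdf g L' f := by
  induction h generalizing f with
  | nil => rfl
  | cons i _ ih =>
    show mdf g _ (fun x => f (g i * x) - f x) = mdf g _ (fun x => f (g i * x) - f x)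
    rw [ih]
  | swap i j L =>
    funext x
    rw [M1_cons, M1_cons, M1_cons, M1_cons, M1_cons, M1_cons, mul_left_comm]
    ring
  | trans _ _ ih1 ih2 => rw [ih1, ih2]

theorem M1_mdv_iff (Γ : ι → Subgroup G) (L : List ι) (hnd : L.Nodup) (f : G → ℤ) :
    MDv Γ L f ↔ ∀ g : ι → G, (∀ j ∈ L, g j ∈ Γ j) → ∀ x, mdf g L f x = 0 := by
  classical
  induction L generalizing f with
  | nil => exact ⟨fun h g _ x => h x, fun h x => h (fun _ => 1) (by simp) x⟩
  | cons i L ih =>
    have hi : i ∉ L := (List.nodup_cons.1 hnd).1
    have hL := (List.nodup_cons.1 hnd).2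
    constructor
    · intro h g hg x
      exact (ih hL _).1 (h (g i) (hg i List.mem_cons_self)) g
        (fun j hj => hg j (List.mem_cons_of_mem _ hj)) x
    · intro h u hu
      rw [ih hL]
      intro g hg x
      have h1 := h (Function.update g i u) (by
        intro j hj
        rcases List.mem_cons.1 hj with rfl | hj'
        · rw [Function.update_self]; exact hu
        · rw [Function.update_of_ne (by rintro rfl; exact hi hj')]; exact hg j hj') x
      have h2 : mdf (Function.update g i u) (i :: L) f x =
        mdf (Function.update g i u) L (fun x => f (u * x) - f x) x := by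
        show mdf (Function.update g i u) L
          (fun x => f (Function.update g i u i * x) - f x) x = _
        rw [Function.update_self]
      rw [h2, M1_congr (Function.update g i u) g L (by
        intro j hj
        rw [Function.update_of_ne (by rintro rfl; exact hi hj)])] at h1
      exact h1

/-- a function with invariant differences has zero differences -/
theorem M1_zero [Finite G] (F : G → ℤ) (u : G) (h : ∀ x, F (u * (u * x)) - F (u * x) =
    F (u * x) - F x) (x : G) : F (u * x) - F x = 0 := by
  have h1 : ∀ n : ℕ, ∀ x, F (u ^ n * (u * x)) - F (u ^ n * x) = F (u * x) - F x := by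
    intro n
    induction n with
    | zero => intro x; simp
    | succ n ih =>
      intro x
      have e1 := ih (u * x)
      rw [h x] at e1
      rw [pow_succ, mul_assoc, mul_assoc]
      exact e1
  have h2 : ∀ n : ℕ, F (u ^ n * x) = F x + n * (F (u * x) - F x) := by
    intro n
    induction n with
    | zero => simp
    | succ n ih =>
      have e1 := h1 n x
      have e2 : u ^ (n + 1) * x = u ^ n * (u * x) := by rw [pow_succ, mul_assoc]
      rw [e2]
      push_cast
      linarith
  have h3 := h2 (Nat.card G)
  rw [pow_card_eq_one', one_mul] at h3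
  have h4 : (Nat.card G : ℤ) * (F (u * x) - F x) = 0 := by linarith
  rcases mul_eq_zero.1 h4 with h5 | h5
  · have : Nat.card G ≠ 0 := Nat.card_pos.ne'
    exact absurd (by exact_mod_cast h5) this
  · exact h5

/-- the difference in one direction of a function killed by all the differences -/
theorem M1_inv (Γ : ι → Subgroup G) (L : List ι) (hnd : L.Nodup) (i : ι) (hi : i ∈ L)
    (f : G → ℤ) (hf : MDv Γ L f) [DecidableEq ι] (g : ι → G) (hg : ∀ j ∈ L, g j ∈ Γ j) (δ : G)
    (hδ : δ ∈ Γ i) (x : G) : mdf g (L.erase i) f (δ * x) = mdf g (L.erase i) f x := by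
  have hni : i ∉ L.erase i := fun h => (hnd.mem_erase_iff.1 h).1 rfl
  have h1 := (M1_mdv_iff Γ L hnd f).1 hf (Function.update g i δ) (by
    intro j hj
    by_cases hji : j = i
    · subst hji; rw [Function.update_self]; exact hδ
    · rw [Function.update_of_ne hji]; exact hg j hj) x
  rw [M1_perm _ (List.perm_cons_erase hi), M1_cons, Function.update_self,
    M1_congr (Function.update g i δ) g (L.erase i) (by
      intro j hj
      rw [Function.update_of_ne (by rintro rfl; exact hni hj)])] at h1
  linarith

theorem mdv_of_inv {G ι : Type*} [CommGroup G] [Finite G] (Γ : ι → Subgroup G) (L : List ι)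
    (hnd : L.Nodup) (i : ι) (hi : i ∈ L) (f : G → ℤ)
    (h : ∀ γ ∈ Γ i, MDv Γ L (fun x => f (γ * x) - f x)) : MDv Γ L f := by
  classical
  rw [M1_mdv_iff Γ L hnd]
  intro g hg x
  rw [M1_perm _ (List.perm_cons_erase hi), M1_cons]
  apply M1_zero
  intro y
  have h1 := M1_inv Γ L hnd i hi _ (h (g i) (hg i hi)) g hg (g i) (hg i hi) y
  rw [M1_sub g (L.erase i) (fun y => f (g i * y)) f, M1_sub g (L.erase i) (fun y => f (g i * y)) f,
    M1_trans, M1_trans] at h1
  exact h1

theorem M1_pl (Γ : ι → Subgroup G) (K : Subgroup G) (L : List ι) (h : ∀ i ∈ L, Γ i ≤ K) :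
    Pl Γ L ≤ K := by
  induction L with
  | nil => exact bot_le
  | cons i L ih =>
    exact sup_le (h i List.mem_cons_self) (ih fun j hj => h j (List.mem_cons_of_mem _ hj))

/-- sign change of the full difference -/
theorem M1_sign (ν : ι → G) (L : List ι) (i : ι) (hi : i ∈ L) (h2 : ν i * ν i = 1) (f : G → ℤ)
    (x : G) : mdf ν L f (ν i * x) = - mdf ν L f x := by
  classical
  rw [M1_perm _ (List.perm_cons_erase hi), M1_cons, M1_cons, ← mul_assoc, h2, one_mul]
  ring

theorem mdv_of_sq {G ι : Type*} [CommGroup G] [Finite G] (Γ : ι → Subgroup G) (L : List ι)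
    (hnd : L.Nodup) (ν : ι → G) (hν : ∀ i ∈ L, ν i ∈ Γ i ∧ ν i * ν i = 1)
    (hΓ : ∀ i ∈ L, ∀ γ ∈ Γ i, ∃ s ∈ Γ i, γ = s * s ∨ γ = s * s * ν i) (htop : Pl Γ L = ⊤)
    (f : G → ℤ) (hsq : ∀ w : G, MDv Γ L (fun x => f (w * w * x) - f x))
    (h1 : mdf ν L f 1 = 0) : MDv Γ L f := by
  classical
  -- invariance of the partial differences under squares of `Γ i`
  have key : ∀ g : ι → G, (∀ j ∈ L, g j ∈ Γ j) → ∀ i ∈ L, ∀ s ∈ Γ i, ∀ x,
      mdf g (L.erase i) f (s * s * x) = mdf g (L.erase i) f x := by
    intro g hg i hi s hs x
    have h0 := M1_zero (mdf g (L.erase i) f) (s * s) (by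
      intro y
      have e := M1_inv Γ L hnd i hi _ (hsq s) g hg (s * s) (mul_mem hs hs) y
      rw [M1_sub g (L.erase i) (fun y => f (s * s * y)) f,
        M1_sub g (L.erase i) (fun y => f (s * s * y)) f, M1_trans, M1_trans] at e
      exact e) x
    linarith
  -- replacement of the elements
  have hrep : ∀ M : List ι, (∀ i ∈ M, i ∈ L) → ∀ g : ι → G, (∀ j ∈ L, g j ∈ Γ j) →
      (∀ j ∈ L, j ∉ M → g j = ν j) → (∀ x, mdf g L f x = 0) ∨ mdf g L f = mdf ν L f := by
    intro M
    induction M with
    | nil =>
      intro _ g _ hgν
      exact Or.inr (M1_congr g ν L (fun j hj => hgν j hj (by simp)) f)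
    | cons i M ih =>
      intro hM g hg hgν
      have hi : i ∈ L := hM i List.mem_cons_self
      have hni : i ∉ L.erase i := fun h => (hnd.mem_erase_iff.1 h).1 rfl
      obtain ⟨s, hs, hcase⟩ := hΓ i hi (g i) (hg i hi)
      rcases hcase with hc | hc
      · left
        intro x
        rw [M1_perm _ (List.perm_cons_erase hi), M1_cons, hc, key g hg i hi s hs x]
        ring
      · have hg' : ∀ j ∈ L, Function.update g i (ν i) j ∈ Γ j := by
          intro j hj
          by_cases hji : j = i
          · subst hji; rw [Function.update_self]; exact (hν j hj).1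
          · rw [Function.update_of_ne hji]; exact hg j hj
        have e : mdf g L f = mdf (Function.update g i (ν i)) L f := by
          funext x
          have ec : mdf (Function.update g i (ν i)) (L.erase i) f = mdf g (L.erase i) f :=
            M1_congr _ g (L.erase i) (by
              intro j hj
              rw [Function.update_of_ne (by rintro rfl; exact hni hj)]) f
          rw [M1_perm g (List.perm_cons_erase hi),
            M1_perm (Function.update g i (ν i)) (List.perm_cons_erase hi), M1_cons, M1_cons, ec,
            Function.update_self, hc, mul_assoc (s * s), key g hg i hi s hs]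
        rw [e]
        apply ih (fun j hj => hM j (List.mem_cons_of_mem _ hj)) _ hg'
        intro j hj hjM
        by_cases hji : j = i
        · subst hji; rw [Function.update_self]
        · rw [Function.update_of_ne hji]
          exact hgν j hj (by
            intro h
            rcases List.mem_cons.1 h with h | h
            · exact hji h
            · exact hjM h)
  -- the difference at `ν` vanishes
  have hT : ∀ x, mdf ν L f x = 0 := by
    have hsq' : ∀ s x : G, mdf ν L f (s * s * x) = mdf ν L f x := by
      intro s x
      have e := (M1_mdv_iff Γ L hnd _).1 (hsq s) ν (fun j hj => (hν j hj).1) x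
      rw [M1_sub ν L (fun y => f (s * s * y)) f, M1_trans] at e
      linarith
    let K : Subgroup G :=
      { carrier := {x | (∀ y, mdf ν L f (x * y) = mdf ν L f y) ∨
          (∀ y, mdf ν L f (x * y) = - mdf ν L f y)}
        one_mem' := Or.inl fun y => by rw [one_mul]
        mul_mem' := by
          rintro a b (ha | ha) (hb | hb)
          · left; intro y; rw [mul_assoc, ha, hb]
          · right; intro y; rw [mul_assoc, ha, hb]
          · right; intro y; rw [mul_assoc, ha, hb]
          · left; intro y; rw [mul_assoc, ha, hb, neg_neg]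
        inv_mem' := by
          rintro a (ha | ha)
          · left; intro y
            have := ha (a⁻¹ * y)
            rw [mul_inv_cancel_left] at this
            exact this.symm
          · right; intro y
            have := ha (a⁻¹ * y)
            rw [mul_inv_cancel_left] at this
            linarith }
    have hK : Pl Γ L ≤ K := by
      apply M1_pl
      intro i hi γ hγ
      obtain ⟨s, -, hc | hc⟩ := hΓ i hi γ hγ
      · left
        intro y
        rw [hc, hsq']
      · right
        intro y
        rw [hc, mul_assoc, hsq', M1_sign ν L i hi (hν i hi).2]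
    intro x
    have hx : x ∈ K := hK (by rw [htop]; exact Subgroup.mem_top x)
    rcases hx with hx | hx
    · have := hx 1
      rw [mul_one] at this
      rw [this, h1]
    · have := hx 1
      rw [mul_one] at this
      rw [this, h1, neg_zero]
  rw [M1_mdv_iff Γ L hnd]
  intro g hg x
  rcases hrep L (fun _ h => h) g hg (fun j hj hj' => absurd hj hj') with h | h
  · exact h x
  · rw [h]
    exact hT x

theorem M1_prod (ν : ι → G) (L : List ι) (hν : ∀ i ∈ L, ν i * ν i = 1) (f : G → ℤ)
    (M : List ι) (hM : ∀ i ∈ M, i ∈ L) (x : G) :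
    mdf ν L f ((M.map ν).prod * x) = (-1) ^ M.length * mdf ν L f x := by
  induction M with
  | nil => simp
  | cons i M ih =>
    have hi : i ∈ L := hM i List.mem_cons_self
    rw [List.map_cons, List.prod_cons, mul_assoc, M1_sign ν L i hi (hν i hi),
      ih fun j hj => hM j (List.mem_cons_of_mem _ hj), List.length_cons, pow_succ]
    ring

theorem mdf_even {G ι : Type*} [CommGroup G] (L : List ι) (ν : ι → G)
    (hν : ∀ i ∈ L, ν i * ν i = 1) (f : G → ℤ) (hodd : ∀ x, f ((L.map ν).prod * x) = - f x)
    (hk : Even L.length) : mdf ν L f 1 = 0 := by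
  have e1 := M1_prod ν L hν f L (fun _ h => h) 1
  rw [hk.neg_one_pow, one_mul] at e1
  have e2 := M1_trans ν L (L.map ν).prod f 1
  rw [e1] at e2
  have e3 : (fun y => f ((L.map ν).prod * y)) = fun y => - f y := funext hodd
  rw [e3, M1_neg] at e2
  linarith

theorem mdf_odd {G ι : Type*} [CommGroup G] (L : List ι) (ν : ι → G)
    (hν : ∀ i ∈ L, ν i * ν i = 1) (f : G → ℤ) (hodd : ∀ x, f ((L.map ν).prod * x) = - f x)
    (hk : Odd L.length) : Even (mdf ν L f 1) := by
  cases L with
  | nil => simp at hk
  | cons i L =>
    have hν' : ∀ j ∈ L, ν j * ν j = 1 := fun j hj => hν j (List.mem_cons_of_mem _ hj)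
    have hk' : Even L.length := by
      rw [List.length_cons] at hk
      rcases Nat.even_or_odd L.length with h | h
      · exact h
      · exact absurd hk (Nat.not_odd_iff_even.2 h.add_one)
    have e1 := M1_prod ν L hν' f L (fun _ h => h) (ν i * 1)
    rw [hk'.neg_one_pow, one_mul] at e1
    have e2 := M1_trans ν L ((i :: L).map ν).prod f 1
    have e3 : (fun y => f (((i :: L).map ν).prod * y)) = fun y => - f y := funext hodd
    rw [e3, M1_neg] at e2
    have e4 : ((i :: L).map ν).prod * 1 = (L.map ν).prod * (ν i * 1) := by
      rw [List.map_cons, List.prod_cons]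
      group
      rw [mul_comm]
    rw [e4, e1] at e2
    rw [M1_cons, ← e2]
    exact ⟨- mdf ν L f 1, by ring⟩

end M1

end Pool.Agent.helper76.MC
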